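import Pool.Agent.P.MP_0a88e3_nt.Main

set_option autoImplicit false

open Filter MeasureTheory ProbabilityTheory

namespace Pool.Agent.Results.MP_0a88e3_nt.CramerModel

/-- With `q 0 < q 1 < ...` the elements of `S`: the indices `n ≥ 1` at which every symmetric sum
`q (n - i) + q (n + i) - 2 q n`, `1 ≤ i ≤ n`, exceeds `c (log (q n))^2`. -/
def Big (S : Set ℕ) (c : ℝ) : Set ℕ :=
  {n | 0 < n ∧ ∀ i, 0 < i → i ≤ n → c * Real.log (Nat.nth (· ∈ S) n) ^ 2 <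
    (Nat.nth (· ∈ S) (n - i) : ℝ) + Nat.nth (· ∈ S) (n + i) - 2 * Nat.nth (· ∈ S) n}

open Pool.Agent.P.MP_0a88e3_nt in
theorem result {Ω : Type*} [MeasurableSpace Ω] (P : Measure Ω) [IsProbabilityMeasure P]
    (A : ℕ → Set Ω) (hA : ∀ m, MeasurableSet (A m)) (hI : iIndepSet A P) (Q : ℕ) (hQ : 0 < Q)
    (hp : ∀ᶠ m : ℕ in atTop, P.real (A m) =
      if m.Coprime Q then (Q : ℝ) / (Q.totient : ℝ) / Real.log (m : ℝ) else 0) :
    ∀ᵐ ω ∂P, {m | ω ∈ A m}.Infinite ∧ ∀ c : ℝ, 0 ≤ c →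
      (2 / 3 < c → (Big {m | ω ∈ A m} c).Finite) ∧
      (c < 2 / 3 → ∀ ε : ℝ, 0 < ε → ∀ᶠ X : ℕ in atTop,
        (X : ℝ) ^ (2 / 3 - c - ε) ≤
          ({n ∈ Big {m | ω ∈ A m} c | Nat.nth (fun m => ω ∈ A m) n ≤ X}.ncard : ℝ) ∧
        ({n ∈ Big {m | ω ∈ A m} c | Nat.nth (fun m => ω ∈ A m) n ≤ X}.ncard : ℝ) ≤
          (X : ℝ) ^ (2 / 3 - c + ε)) := by
  obtain ⟨M, m0, g, rfl, e⟩ := ex_model P A hA hI hQ (hp.mono fun m h => by
    rw [h, ch]; split_ifs <;> simp [ka])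
  filter_upwards [g.main] with ω h
  simpa only [Big, Bg, pt, e, Set.mem_ofPred_eq] using h

end Pool.Agent.Results.MP_0a88e3_nt.CramerModel
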