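import Pool.Agent.P.MP_0a88e3_nt.PL.All

set_option autoImplicit false

namespace Pool.Agent.Results.MP_0a88e3_nt.PolylogRange

/-- With `p_k = Nat.nth Nat.Prime (k - 1)` the `k`-th prime: if `a, b ≥ 0` and `5 a + b < 5`, there are
arbitrarily large `n` with `p_(n-i) + p_(n+i) - 2 p_n > (log n) ^ a` for all `1 ≤ i ≤ (log n) ^ b`. -/
theorem result (a b : ℝ) (ha : 0 ≤ a) (hb : 0 ≤ b) (hab : 5 * a + b < 5) (N : ℕ) :
    ∃ n : ℕ, N ≤ n ∧ 2 ≤ n ∧ Real.log n ^ b < n ∧ ∀ i : ℕ, 0 < i → (i : ℝ) ≤ Real.log n ^ b →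
      Real.log n ^ a < (Nat.nth Nat.Prime (n - i - 1) : ℝ) + (Nat.nth Nat.Prime (n + i - 1) : ℝ)
        - 2 * (Nat.nth Nat.Prime (n - 1) : ℝ) :=
  Pool.Agent.P.MP_0a88e3_nt.PL.fin_of_core Pool.Agent.P.MP_0a88e3_nt.PL.core_all a b ha hb hab N

end Pool.Agent.Results.MP_0a88e3_nt.PolylogRange
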